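import Pool.Agent.Helper15.RK.GoalsF
import Pool.Agent.Helper13.SP.LMID
import Pool.Agent.Helper35.SP.BOX

/-! # ST2A: the second Stokes formula for a Kähler metric -/

open Complex Metric Set Filter Topology MeasureTheory
open scoped ContDiff ComplexConjugate ComplexOrder Manifold Matrix

namespace Pool.Agent.Helper74.RK

open Pool.Agent.Helper95.Lin Pool.Agent.Helper16.Abund Pool.Agent.Helper92.Orb
  Pool.Agent.Helper10.SP Pool.Agent.Helper95.RK Pool.Agent.Helper15.RK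
open Pool.Agent.Helper13.SP (PP div_PP Jm fderiv_eq_Jm)
open Pool.Agent.Helper35.SP (sm_conj sm_real fd_holo arr_mem)
open Pool.Agent.Helper83.SP (cd_congr cd_const cd_sum)

universe u

variable {n : ℕ}

/-! ## Sums -/

theorem sum4 (F : Fin n → Fin n → Fin n → Fin n → ℂ) :
    ∑ j, ∑ i, ∑ l, ∑ m, F j i l m =
      ∑ t : Fin n × Fin n × Fin n × Fin n, F t.1 t.2.1 t.2.2.1 t.2.2.2 := by
  simp only [Fintype.sum_prod_type]

theorem sum3 (F : Fin n → Fin n → Fin n → ℂ) :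
    ∑ a, ∑ b, ∑ q, F a b q = ∑ t : Fin n × Fin n × Fin n, F t.1 t.2.1 t.2.2 := by
  simp only [Fintype.sum_prod_type]

theorem swap13 (F : Fin n → Fin n → Fin n → Fin n → ℂ) :
    ∑ j, ∑ i, ∑ l, ∑ m, F j i l m = ∑ j, ∑ i, ∑ l, ∑ m, F l i j m := by
  calc ∑ j, ∑ i, ∑ l, ∑ m, F j i l m = ∑ i, ∑ j, ∑ l, ∑ m, F j i l m := Finset.sum_comm
    _ = ∑ i, ∑ l, ∑ j, ∑ m, F j i l m := Finset.sum_congr rfl fun i _ => Finset.sum_comm
    _ = ∑ l, ∑ i, ∑ j, ∑ m, F j i l m := Finset.sum_comm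

theorem rev3 (F : Fin n → Fin n → Fin n → ℂ) :
    ∑ a, ∑ b, ∑ q, F a b q = ∑ q, ∑ b, ∑ a, F a b q := by
  calc ∑ a, ∑ b, ∑ q, F a b q = ∑ b, ∑ a, ∑ q, F a b q := Finset.sum_comm
    _ = ∑ b, ∑ q, ∑ a, F a b q := Finset.sum_congr rfl fun i _ => Finset.sum_comm
    _ = ∑ q, ∑ b, ∑ a, F a b q := Finset.sum_comm

theorem anti13 (F : Fin n → Fin n → Fin n → Fin n → ℂ) (h : ∀ j i l m, F j i l m = - F l i j m) :
    ∑ j, ∑ i, ∑ l, ∑ m, F j i l m = 0 := by
  have h1 : ∑ j, ∑ i, ∑ l, ∑ m, F j i l m = - ∑ j, ∑ i, ∑ l, ∑ m, F j i l m := by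
    conv_lhs => rw [swap13]
    simp only [← Finset.sum_neg_distrib]
    exact Finset.sum_congr rfl fun j _ => Finset.sum_congr rfl fun i _ =>
      Finset.sum_congr rfl fun l _ => Finset.sum_congr rfl fun m _ => h l i j m
  have h2 : (2 : ℂ) * ∑ j, ∑ i, ∑ l, ∑ m, F j i l m = 0 := by linear_combination h1
  simpa using h2

theorem anti24 (F : Fin n → Fin n → Fin n → Fin n → ℂ) (h : ∀ j i l m, F j i l m = - F j m l i) :
    ∑ j, ∑ i, ∑ l, ∑ m, F j i l m = 0 := by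
  refine Finset.sum_eq_zero fun j _ => ?_
  have h1 : ∑ i, ∑ l, ∑ m, F j i l m = - ∑ i, ∑ l, ∑ m, F j i l m := by
    conv_lhs => rw [rev3]
    simp only [← Finset.sum_neg_distrib]
    exact Finset.sum_congr rfl fun i _ =>
      Finset.sum_congr rfl fun l _ => Finset.sum_congr rfl fun m _ => h j m l i
  have h2 : (2 : ℂ) * ∑ i, ∑ l, ∑ m, F j i l m = 0 := by linear_combination h1
  simpa using h2

theorem four (f g : Fin n → Fin n → ℂ) :
    (∑ j, ∑ i, f j i) * (∑ l, ∑ m, g l m) = ∑ j, ∑ i, ∑ l, ∑ m, f j i * g l m := by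
  rw [Finset.sum_mul]
  refine Finset.sum_congr rfl fun j _ => ?_
  rw [Finset.sum_mul]
  refine Finset.sum_congr rfl fun i _ => ?_
  rw [Finset.mul_sum]
  refine Finset.sum_congr rfl fun l _ => ?_
  rw [Finset.mul_sum]

/-- The exchange of sums. -/
theorem exch (F : Fin n → Fin n → Fin n → Fin n → ℂ) (f : Fin n → Fin n → Fin n → ℂ)
    (h : Fin n → Fin n → Fin n → Fin n → Fin n → Fin n → Fin n → ℂ) :
    ∑ j, ∑ i, ∑ l, ∑ m, F j i l m * ∑ a, ∑ b, ∑ q, h j i l m a b q * f a b q =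
    ∑ a, ∑ b, ∑ q, (∑ j, ∑ i, ∑ l, ∑ m, h j i l m a b q * F j i l m) * f a b q := by
  have e1 : ∑ j, ∑ i, ∑ l, ∑ m, F j i l m * ∑ a, ∑ b, ∑ q, h j i l m a b q * f a b q =
      ∑ t : Fin n × Fin n × Fin n × Fin n, ∑ s : Fin n × Fin n × Fin n,
        F t.1 t.2.1 t.2.2.1 t.2.2.2 *
          (h t.1 t.2.1 t.2.2.1 t.2.2.2 s.1 s.2.1 s.2.2 * f s.1 s.2.1 s.2.2) := by
    rw [sum4]
    refine Finset.sum_congr rfl fun t _ => ?_
    rw [sum3, Finset.mul_sum]
  have e2 : ∑ a, ∑ b, ∑ q, (∑ j, ∑ i, ∑ l, ∑ m, h j i l m a b q * F j i l m) * f a b q =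
      ∑ s : Fin n × Fin n × Fin n, ∑ t : Fin n × Fin n × Fin n × Fin n,
        h t.1 t.2.1 t.2.2.1 t.2.2.2 s.1 s.2.1 s.2.2 * F t.1 t.2.1 t.2.2.1 t.2.2.2 *
          f s.1 s.2.1 s.2.2 := by
    rw [sum3]
    refine Finset.sum_congr rfl fun s _ => ?_
    rw [sum4, Finset.sum_mul]
  rw [e1, e2, Finset.sum_comm]
  exact Finset.sum_congr rfl fun s _ => Finset.sum_congr rfl fun t _ => by ring

theorem pull (X : Fin n → Fin n → Fin n → ℂ) (J : Fin n → ℂ)
    (D : Fin n → Fin n → Fin n → Fin n → ℂ) :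
    ∑ a, ∑ b, ∑ q, X a b q * ∑ p, J p * D p a b q =
      ∑ p, ∑ a, ∑ b, ∑ q, (X a b q * J p) * D p a b q := by
  have e1 : ∑ a, ∑ b, ∑ q, X a b q * ∑ p, J p * D p a b q =
      ∑ s : Fin n × Fin n × Fin n, ∑ p, X s.1 s.2.1 s.2.2 * (J p * D p s.1 s.2.1 s.2.2) := by
    rw [sum3]
    exact Finset.sum_congr rfl fun s _ => Finset.mul_sum _ _ _
  have e2 : ∑ p, ∑ a, ∑ b, ∑ q, (X a b q * J p) * D p a b q =
      ∑ p, ∑ s : Fin n × Fin n × Fin n, X s.1 s.2.1 s.2.2 * J p * D p s.1 s.2.1 s.2.2 :=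
    Finset.sum_congr rfl fun p _ => sum3 _
  rw [e1, e2, Finset.sum_comm]
  exact Finset.sum_congr rfl fun s _ => Finset.sum_congr rfl fun t _ => by ring

theorem out5 (F : Fin n → Fin n → Fin n → Fin n → Fin n → ℂ) :
    ∑ j, ∑ i, ∑ l, ∑ m, ∑ p, F j i l m p = ∑ p, ∑ j, ∑ i, ∑ l, ∑ m, F j i l m p := by
  rw [sum4 (fun j i l m => ∑ p, F j i l m p), Finset.sum_comm]
  exact Finset.sum_congr rfl fun p _ => (sum4 (fun j i l m => F j i l m p)).symm

theorem split3 (P A B C : Fin n → Fin n → Fin n → Fin n → ℂ) :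
    ∑ j, ∑ i, ∑ l, ∑ m, P j i l m * (A j i l m + B j i l m + C j i l m) =
      ∑ j, ∑ i, ∑ l, ∑ m, P j i l m * A j i l m + ∑ j, ∑ i, ∑ l, ∑ m, P j i l m * B j i l m +
      ∑ j, ∑ i, ∑ l, ∑ m, P j i l m * C j i l m := by
  rw [sum4, sum4, sum4, sum4, ← Finset.sum_add_distrib, ← Finset.sum_add_distrib]
  exact Finset.sum_congr rfl fun s _ => by ring

theorem contr (N : ℂ) (F F' : Fin n → Fin n → Fin n → Fin n → ℂ) (J Jb : Fin n → Fin n → ℂ)
    (D : Fin n → Fin n → Fin n → Fin n → ℂ)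
    (hN : ∀ q p b a, N * F' q p b a =
      ∑ j, ∑ i, ∑ l, ∑ m, (Jb q j * J p i * Jb b l * J a m) * F j i l m) :
    ∑ j, ∑ i, ∑ l, ∑ m, F j i l m *
      ∑ p, ∑ a, ∑ b, ∑ q, (J a m * (Jb b l * Jb q j) * J p i) * D p a b q =
      N * ∑ q, ∑ p, ∑ b, ∑ a, F' q p b a * D p a b q := by
  have f0 : ∑ j, ∑ i, ∑ l, ∑ m, F j i l m *
      ∑ p, ∑ a, ∑ b, ∑ q, (J a m * (Jb b l * Jb q j) * J p i) * D p a b q =
      ∑ j, ∑ i, ∑ l, ∑ m, ∑ p, F j i l m *
      ∑ a, ∑ b, ∑ q, (J a m * (Jb b l * Jb q j) * J p i) * D p a b q :=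
    Finset.sum_congr rfl fun j _ => Finset.sum_congr rfl fun i _ =>
      Finset.sum_congr rfl fun l _ => Finset.sum_congr rfl fun m _ => Finset.mul_sum _ _ _
  have f1 := out5 (fun j i l m p => F j i l m *
      ∑ a, ∑ b, ∑ q, (J a m * (Jb b l * Jb q j) * J p i) * D p a b q)
  have f3 : ∀ p, ∑ j, ∑ i, ∑ l, ∑ m, F j i l m *
        (∑ a, ∑ b, ∑ q, (J a m * (Jb b l * Jb q j) * J p i) * D p a b q) =
        N * ∑ q, ∑ b, ∑ a, F' q p b a * D p a b q := by
    intro p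
    have g1 := exch F (D p) (fun j i l m a b q => J a m * (Jb b l * Jb q j) * J p i)
    have e6 : ∀ a b q, ∑ j, ∑ i, ∑ l, ∑ m,
        J a m * (Jb b l * Jb q j) * J p i * F j i l m = N * F' q p b a := by
      intro a b q
      rw [hN q p b a]
      exact Finset.sum_congr rfl fun j _ => Finset.sum_congr rfl fun i _ =>
        Finset.sum_congr rfl fun l _ => Finset.sum_congr rfl fun m _ => by ring
    have g2 : ∑ a, ∑ b, ∑ q, (∑ j, ∑ i, ∑ l, ∑ m,
        J a m * (Jb b l * Jb q j) * J p i * F j i l m) * D p a b q =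
        ∑ a, ∑ b, ∑ q, N * (F' q p b a * D p a b q) :=
      Finset.sum_congr rfl fun a _ => Finset.sum_congr rfl fun b _ =>
        Finset.sum_congr rfl fun q _ => by rw [e6]; ring
    refine g1.trans (g2.trans ?_)
    rw [rev3]
    simp only [Finset.mul_sum]
  refine f0.trans (f1.trans ?_)
  rw [Finset.sum_congr rfl (fun p _ => f3 p), ← Finset.mul_sum, Finset.sum_comm]

/-! ## The coefficients -/

theorem PP_anti13 (H : Cn n → Matrix (Fin n) (Fin n) ℂ) (j i l m : Fin n) (y : Cn n) :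
    PP H j i l m y = - PP H l i j m y := by
  unfold PP; ring

theorem PP_anti24 (H : Cn n → Matrix (Fin n) (Fin n) ℂ) (j i l m : Fin n) (y : Cn n) :
    PP H j i l m y = - PP H j m l i y := by
  unfold PP; ring

/-- The entries of the Jacobian matrix. -/
noncomputable def Jc (τ : Cn n → Cn n) (p i : Fin n) (y : Cn n) : ℂ :=
  fderiv ℂ τ y (Pi.single i 1) p

section nat

variable {T : Set (Cn n)} {G : Type u} [Group G] {R : G → Cn n → Cn n → Prop}
  {H g : Cn n → Matrix (Fin n) (Fin n) ℂ} {U : Set (Cn n)} {τ : Cn n → Cn n} {x : Cn n}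

/-- Naturality of the coefficients. -/
theorem PP_nat (hDETI : S_DETI.{u}) (hK : KEt T R H) (ha : Arr R U τ) (hx : x ∈ U)
    (q p b a : Fin n) : ((‖(fderiv ℂ τ x).det‖ ^ 2 : ℝ) : ℂ) * PP H q p b a (τ x) =
    ∑ j, ∑ i, ∑ l, ∑ m, (conj (Jc τ q j x) * Jc τ p i x * conj (Jc τ b l x) * Jc τ a m x) *
      PP H j i l m x := by
  obtain ⟨h1, h2⟩ := (hDETI T R H hK).2.2.2.2.1 U τ ha x hx
  have h2' : ∀ j k, (H (τ x))⁻¹ j k = ∑ p, ∑ q, conj (Jc τ j p x) * (H x)⁻¹ p q * Jc τ k q x := h2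
  have h1' : ((H x).det.re : ℂ) =
      ((H (τ x)).det.re : ℂ) * ((‖(fderiv ℂ τ x).det‖ ^ 2 : ℝ) : ℂ) := by
    rw [h1]; push_cast; ring
  have e1 : ((H x).det.re : ℂ) * ((H (τ x))⁻¹ q p * (H (τ x))⁻¹ b a) =
      ∑ j, ∑ i, ∑ l, ∑ m, (conj (Jc τ q j x) * Jc τ p i x * conj (Jc τ b l x) * Jc τ a m x) *
        ((((H x).det.re : ℂ) * (H x)⁻¹ j i) * (H x)⁻¹ l m) := by
    rw [h2', h2', four]
    simp only [Finset.mul_sum]
    exact Finset.sum_congr rfl fun j _ => Finset.sum_congr rfl fun i _ =>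
      Finset.sum_congr rfl fun l _ => Finset.sum_congr rfl fun m _ => by ring
  have e2 : ((H x).det.re : ℂ) * ((H (τ x))⁻¹ b p * (H (τ x))⁻¹ q a) =
      ∑ j, ∑ i, ∑ l, ∑ m, (conj (Jc τ q j x) * Jc τ p i x * conj (Jc τ b l x) * Jc τ a m x) *
        ((((H x).det.re : ℂ) * (H x)⁻¹ l i) * (H x)⁻¹ j m) := by
    rw [h2', h2', four, swap13]
    simp only [Finset.mul_sum]
    exact Finset.sum_congr rfl fun j _ => Finset.sum_congr rfl fun i _ =>
      Finset.sum_congr rfl fun l _ => Finset.sum_congr rfl fun m _ => by ring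
  have e3 : ∑ j, ∑ i, ∑ l, ∑ m,
      (conj (Jc τ q j x) * Jc τ p i x * conj (Jc τ b l x) * Jc τ a m x) * PP H j i l m x =
      ((H x).det.re : ℂ) * ((H (τ x))⁻¹ q p * (H (τ x))⁻¹ b a) -
      ((H x).det.re : ℂ) * ((H (τ x))⁻¹ b p * (H (τ x))⁻¹ q a) := by
    rw [e1, e2]
    simp only [← Finset.sum_sub_distrib]
    exact Finset.sum_congr rfl fun j _ => Finset.sum_congr rfl fun i _ =>
      Finset.sum_congr rfl fun l _ => Finset.sum_congr rfl fun m _ => by unfold PP; ring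
  rw [e3, h1']
  unfold PP
  ring

theorem cd_coord (hU : IsOpen U) (hτ : DifferentiableOn ℂ τ U) (hx : x ∈ U) (b l : Fin n) :
    cd l (fun y => τ y b) x = 2 * Jc τ b l x := by
  have h0 : DifferentiableAt ℂ τ x := (hτ x hx).differentiableAt (hU.mem_nhds hx)
  have h1 : HasFDerivAt (𝕜 := ℂ) (fun y => τ y b)
      ((ContinuousLinearMap.proj (R := ℂ) (φ := fun _ : Fin n => ℂ) b).comp (fderiv ℂ τ x)) x :=
    (hasFDerivAt_pi'.1 h0.hasFDerivAt) b
  have h2 := (h1.restrictScalars ℝ).fderiv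
  unfold cd
  rw [h2]
  have h3 : (Pi.single l I : Cn n) = I • (Pi.single l (1 : ℂ) : Cn n) := by
    rw [← Pi.single_smul]
    simp
  have h4 : (((ContinuousLinearMap.proj (R := ℂ) (φ := fun _ : Fin n => ℂ) b).comp
      (fderiv ℂ τ x)).restrictScalars ℝ) (Pi.single l I) = I * Jc τ b l x := by
    rw [h3]
    show (fderiv ℂ τ x (I • (Pi.single l (1 : ℂ) : Cn n))) b = _
    rw [map_smul]
    rfl
  have h5 : (((ContinuousLinearMap.proj (R := ℂ) (φ := fun _ : Fin n => ℂ) b).comp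
      (fderiv ℂ τ x)).restrictScalars ℝ) (Pi.single l 1) = Jc τ b l x := rfl
  rw [h4, h5]
  have : I * (I * Jc τ b l x) = - Jc τ b l x := by
    rw [← mul_assoc, I_mul_I]; ring
  rw [this]
  ring

theorem Jc_smooth (hU : IsOpen U) (hτ : DifferentiableOn ℂ τ U) (b l : Fin n) :
    ContDiffOn ℝ ∞ (Jc τ b l) U := holo_contDiffOn_real hU (fd_holo hU hτ l b)

theorem Jc_cdb (hWIRT : S_WIRT) (hU : IsOpen U) (hτ : DifferentiableOn ℂ τ U) (hx : x ∈ U)
    (b l j : Fin n) : cdb j (Jc τ b l) x = 0 := by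
  have h := Jc_smooth hU hτ b l
  exact (hWIRT U hU _ _ h h).2.2.2.2.2.2 (fd_holo hU hτ l b) j x hx

theorem Jc_symm (hWIRT : S_WIRT) (hU : IsOpen U) (hτ : DifferentiableOn ℂ τ U) (hx : x ∈ U)
    (b l j : Fin n) : cd j (Jc τ b l) x = cd l (Jc τ b j) x := by
  have hs : ContDiffOn ℝ ∞ (fun y => τ y b) U :=
    contDiffOn_pi.1 (holo_contDiffOn_real hU hτ) b
  have h1 := ((hWIRT U hU _ _ hs hs).2.2.2.2.1 j l x hx).1
  have h2 : ∀ j l, cd j (cd l (fun y => τ y b)) x = 2 * cd j (Jc τ b l) x := by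
    intro j l
    have hJ := Jc_smooth hU hτ b l
    rw [(cd_congr hU (g := fun y => 2 * Jc τ b l y) (fun y hy => cd_coord hU hτ hy b l) j hx).1,
      ((hWIRT U hU (fun _ => 2) _ contDiffOn_const hJ).2.2.1 j x hx).1, (cd_const 2 j x).1]
    ring
  rw [h2, h2] at h1
  linear_combination h1 / 2

/-- The natural part of the first derivatives. -/
noncomputable def PA (τ : Cn n → Cn n) (g : Cn n → Matrix (Fin n) (Fin n) ℂ) (j m l : Fin n)
    (y : Cn n) : ℂ :=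
  ∑ a, ∑ b, ∑ q, Jc τ a m y * (conj (Jc τ b l y) * conj (Jc τ q j y)) *
    (cdb q (fun z => g z a b) ∘ τ) y

/-- The other part of the first derivatives. -/
noncomputable def QA (τ : Cn n → Cn n) (g : Cn n → Matrix (Fin n) (Fin n) ℂ) (j m l : Fin n)
    (y : Cn n) : ℂ :=
  ∑ a, ∑ b, Jc τ a m y * conj (cd j (Jc τ b l) y) * ((fun z => g z a b) ∘ τ) y

theorem hermi_single (A : Matrix (Fin n) (Fin n) ℂ) (m l : Fin n) :
    hermi A (Pi.single m 1) (Pi.single l 1) = A m l := by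
  unfold hermi
  rw [Finset.sum_eq_single m, Finset.sum_eq_single l]
  · simp
  · intro b _ hb
    simp [Pi.single_apply, hb]
  · simp
  · intro b _ hb
    apply Finset.sum_eq_zero
    intro c _
    simp [hb]
  · simp

/-- The metric in terms of its transform. -/
theorem g_eq (hinv : ∀ U τ, Arr R U τ → ∀ x ∈ U, ∀ e e',
    hermi (g (τ x)) (fderiv ℂ τ x e) (fderiv ℂ τ x e') = hermi (g x) e e') (ha : Arr R U τ)
    (hx : x ∈ U) (m l : Fin n) :
    g x m l = ∑ a, ∑ b, Jc τ a m x * conj (Jc τ b l x) * ((fun z => g z a b) ∘ τ) x := by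
  have h := hinv U τ ha x hx (Pi.single m 1) (Pi.single l 1)
  rw [hermi_single] at h
  rw [← h]
  unfold hermi
  exact Finset.sum_congr rfl fun a _ => Finset.sum_congr rfl fun b _ => by
    simp only [Jc, Function.comp_apply]; ring

section der

variable (hWIRT : S_WIRT) (hWCH : S_WCH) (hK : KEt T R H)
  (hg : ∀ i j, ContDiffOn ℝ ∞ (fun x => g x i j) T)
  (hinv : ∀ U τ, Arr R U τ → ∀ x ∈ U, ∀ e e',
    hermi (g (τ x)) (fderiv ℂ τ x e) (fderiv ℂ τ x e') = hermi (g x) e e')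

include hWIRT hWCH hK hg hinv

/-- The first derivatives. -/
theorem cdb_g (ha : Arr R U τ) (hx : x ∈ U) (j m l : Fin n) :
    cdb j (fun z => g z m l) x = PA τ g j m l x + QA τ g j m l x := by
  have hU := ha.1
  have hτ := ha.2.1
  have hT := hK.et.isOpen
  have hm : MapsTo τ U T := fun y hy => (arr_mem hK ha hy).2
  have hτs := holo_contDiffOn_real hU hτ
  have hJ := fun b l => Jc_smooth hU hτ b l
  have hJc := fun b l => sm_conj (hJ b l)
  have hgc : ∀ a b, ContDiffOn ℝ ∞ ((fun z => g z a b) ∘ τ) U := fun a b => (hg a b).comp hτs hm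
  rw [(cd_congr hU (fun y hy => g_eq hinv ha hy m l) j hx).2,
    (cd_sum hWIRT hU Finset.univ _ (fun a _ => ContDiffOn.sum fun b _ =>
      ((hJ a m).mul (hJc b l)).mul (hgc a b)) j hx).2]
  unfold PA QA
  rw [← Finset.sum_add_distrib]
  refine Finset.sum_congr rfl fun a _ => ?_
  rw [(cd_sum hWIRT hU Finset.univ _ (fun b _ =>
      ((hJ a m).mul (hJc b l)).mul (hgc a b)) j hx).2, ← Finset.sum_add_distrib]
  refine Finset.sum_congr rfl fun b _ => ?_
  rw [((hWIRT U hU _ _ ((hJ a m).mul (hJc b l)) (hgc a b)).2.2.1 j x hx).2,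
    ((hWIRT U hU _ _ (hJ a m) (hJc b l)).2.2.1 j x hx).2,
    ((hWIRT U hU _ _ (hJ b l) (hJ b l)).2.2.2.1 j x hx).2, Jc_cdb hWIRT hU hτ hx,
    ((hWCH.1 T U hT hU τ hτ hm).1 _ (hg a b) j x hx).2, Finset.mul_sum]
  have e : ∀ q, Jc τ a m x * (conj (Jc τ b l x) * conj (Jc τ q j x)) *
      (cdb q (fun z => g z a b) ∘ τ) x = Jc τ a m x * conj (Jc τ b l x) *
        (conj (fderiv ℂ τ x (Pi.single j 1) q) * cdb q (fun z => g z a b) (τ x)) := by
    intro q
    simp only [Jc, Function.comp_apply]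
    ring
  simp only [e]
  simp only [Function.comp_apply]
  ring

omit hinv in
theorem PQ_smooth (ha : Arr R U τ) (j m l : Fin n) :
    ContDiffOn ℝ ∞ (PA τ g j m l) U ∧ ContDiffOn ℝ ∞ (QA τ g j m l) U := by
  have hU := ha.1
  have hτ := ha.2.1
  have hT := hK.et.isOpen
  have hm : MapsTo τ U T := fun y hy => (arr_mem hK ha hy).2
  have hτs := holo_contDiffOn_real hU hτ
  have hJ := fun b l => Jc_smooth hU hτ b l
  have hJc := fun b l => sm_conj (hJ b l)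
  have hgc : ∀ a b, ContDiffOn ℝ ∞ ((fun z => g z a b) ∘ τ) U := fun a b => (hg a b).comp hτs hm
  have hgd : ∀ q a b, ContDiffOn ℝ ∞ (cdb q (fun z => g z a b) ∘ τ) U := fun q a b =>
    (((hWIRT T hT _ _ (hg a b) (hg a b)).1 q).2).comp hτs hm
  have hJd : ∀ b l j, ContDiffOn ℝ ∞ (fun y => conj (cd j (Jc τ b l) y)) U := fun b l j =>
    sm_conj ((hWIRT U hU _ _ (hJ b l) (hJ b l)).1 j).1
  exact ⟨ContDiffOn.sum fun a _ => ContDiffOn.sum fun b _ => ContDiffOn.sum fun q _ =>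
      ((hJ a m).mul ((hJc b l).mul (hJc q j))).mul (hgd q a b),
    ContDiffOn.sum fun a _ => ContDiffOn.sum fun b _ =>
      ((hJ a m).mul (hJd b l j)).mul (hgc a b)⟩

omit hWCH hK hg hinv in
theorem QA_symm (ha : Arr R U τ) (hx : x ∈ U) (j m l : Fin n) :
    QA τ g j m l x = QA τ g l m j x := by
  unfold QA
  exact Finset.sum_congr rfl fun a _ => Finset.sum_congr rfl fun b _ => by
    rw [Jc_symm hWIRT ha.1 ha.2.1 hx b l j]

omit hinv in
/-- The derivative of the natural part. -/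
theorem cd_PA (ha : Arr R U τ) (hx : x ∈ U) (i j m l : Fin n) :
    cd i (PA τ g j m l) x = ∑ a, ∑ b, ∑ q, (cd i (Jc τ a m) x *
      (conj (Jc τ b l x) * conj (Jc τ q j x)) * cdb q (fun z => g z a b) (τ x) +
      Jc τ a m x * (conj (Jc τ b l x) * conj (Jc τ q j x)) *
        ∑ p, Jc τ p i x * cd p (cdb q (fun z => g z a b)) (τ x)) := by
  have hU := ha.1
  have hτ := ha.2.1
  have hT := hK.et.isOpen
  have hm : MapsTo τ U T := fun y hy => (arr_mem hK ha hy).2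
  have hτs := holo_contDiffOn_real hU hτ
  have hJ := fun b l => Jc_smooth hU hτ b l
  have hJc := fun b l => sm_conj (hJ b l)
  have hgd' : ∀ q a b, ContDiffOn ℝ ∞ (cdb q (fun z => g z a b)) T := fun q a b =>
    ((hWIRT T hT _ _ (hg a b) (hg a b)).1 q).2
  have hgd : ∀ q a b, ContDiffOn ℝ ∞ (cdb q (fun z => g z a b) ∘ τ) U := fun q a b =>
    (hgd' q a b).comp hτs hm
  have hF : ∀ a b q, ContDiffOn ℝ ∞ (fun y => Jc τ a m y *
      (conj (Jc τ b l y) * conj (Jc τ q j y)) * (cdb q (fun z => g z a b) ∘ τ) y) U :=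
    fun a b q => ((hJ a m).mul ((hJc b l).mul (hJc q j))).mul (hgd q a b)
  have h0 : ∀ b l, cd i (fun y => conj (Jc τ b l y)) x = 0 := by
    intro b l
    rw [((hWIRT U hU _ _ (hJ b l) (hJ b l)).2.2.2.1 i x hx).1, Jc_cdb hWIRT hU hτ hx, map_zero]
  unfold PA
  rw [(cd_sum hWIRT hU Finset.univ _ (fun a _ => ContDiffOn.sum fun b _ => ContDiffOn.sum
    fun q _ => hF a b q) i hx).1]
  refine Finset.sum_congr rfl fun a _ => ?_
  rw [(cd_sum hWIRT hU Finset.univ _ (fun b _ => ContDiffOn.sum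
    fun q _ => hF a b q) i hx).1]
  refine Finset.sum_congr rfl fun b _ => ?_
  rw [(cd_sum hWIRT hU Finset.univ _ (fun q _ => hF a b q) i hx).1]
  refine Finset.sum_congr rfl fun q _ => ?_
  rw [((hWIRT U hU _ _ ((hJ a m).mul ((hJc b l).mul (hJc q j))) (hgd q a b)).2.2.1 i x hx).1,
    ((hWIRT U hU _ _ (hJ a m) ((hJc b l).mul (hJc q j))).2.2.1 i x hx).1,
    ((hWIRT U hU _ _ (hJc b l) (hJc q j)).2.2.1 i x hx).1, h0, h0,
    ((hWCH.1 T U hT hU τ hτ hm).1 _ (hgd' q a b) i x hx).1]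
  simp only [Function.comp_apply]
  show _ = _ + Jc τ a m x * (conj (Jc τ b l x) * conj (Jc τ q j x)) *
    ∑ p, fderiv ℂ τ x (Pi.single i 1) p * cd p (cdb q (fun z => g z a b)) (τ x)
  ring

/-- The second derivatives. -/
theorem cd_cdb_g (ha : Arr R U τ) (hx : x ∈ U) (i j m l : Fin n) :
    cd i (cdb j (fun z => g z m l)) x = cd i (PA τ g j m l) x + cd i (QA τ g j m l) x := by
  have hU := ha.1
  have h1 := fun m l => PQ_smooth hWIRT hWCH hK hg ha j m l
  rw [(cd_congr hU (fun y hy => cdb_g hWIRT hWCH hK hg hinv ha hy j m l) i hx).1,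
    ((hWIRT U hU _ _ (h1 m l).1 (h1 m l).2).2.1 i x hx).1]

end der

/-- The vector field. -/
noncomputable def YY (H g : Cn n → Matrix (Fin n) (Fin n) ℂ) (x : Cn n) : Cn n := fun i =>
  ∑ j, ∑ l, ∑ m, PP H j i l m x * cdb j (fun z => g z m l) x

theorem E2_eq (h0 : (H x).det.im = 0) : E2 H g x =
    ∑ j, ∑ i, ∑ l, ∑ m, PP H j i l m x * cd i (cdb j (fun z => g z m l)) x := by
  have h1 : (H x).det = ((H x).det.re : ℂ) := by
    apply Complex.ext
    · simp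
    · simp [h0]
  unfold E2
  rw [h1]
  simp only [Finset.mul_sum]
  exact Finset.sum_congr rfl fun j _ => Finset.sum_congr rfl fun i _ =>
    Finset.sum_congr rfl fun l _ => Finset.sum_congr rfl fun m _ => by unfold PP; ring

theorem YY_nat (hWIRT : S_WIRT) (hWCH : S_WCH) (hDETI : S_DETI.{u}) (hK : KEt T R H)
    (hg : ∀ i j, ContDiffOn ℝ ∞ (fun x => g x i j) T)
    (hinv : ∀ U τ, Arr R U τ → ∀ x ∈ U, ∀ e e',
      hermi (g (τ x)) (fderiv ℂ τ x e) (fderiv ℂ τ x e') = hermi (g x) e e')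
    (ha : Arr R U τ) (hx : x ∈ U) :
    fderiv ℂ τ x (YY H g x) = ((‖(fderiv ℂ τ x).det‖ ^ 2 : ℝ) : ℂ) • YY H g (τ x) := by
  rw [fderiv_eq_Jm]
  funext p
  have e1 : (Jm τ x *ᵥ YY H g x) p = ∑ j, ∑ i, ∑ l, ∑ m, (Jc τ p i x * PP H j i l m x) *
      cdb j (fun z => g z m l) x := by
    show ∑ i, Jc τ p i x * ∑ j, ∑ l, ∑ m, PP H j i l m x * cdb j (fun z => g z m l) x = _
    simp only [Finset.mul_sum]
    rw [Finset.sum_comm]
    exact Finset.sum_congr rfl fun j _ => Finset.sum_congr rfl fun i _ =>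
      Finset.sum_congr rfl fun l _ => Finset.sum_congr rfl fun m _ => by ring
  have e2 : ∑ j, ∑ i, ∑ l, ∑ m, (Jc τ p i x * PP H j i l m x) * QA τ g j m l x = 0 := by
    refine anti13 _ fun j i l m => ?_
    rw [PP_anti13, QA_symm hWIRT ha hx j m l]
    ring
  have e3 : ∑ j, ∑ i, ∑ l, ∑ m, (Jc τ p i x * PP H j i l m x) * cdb j (fun z => g z m l) x =
      ∑ j, ∑ i, ∑ l, ∑ m, (Jc τ p i x * PP H j i l m x) * PA τ g j m l x := by
    have : ∑ j, ∑ i, ∑ l, ∑ m, (Jc τ p i x * PP H j i l m x) * cdb j (fun z => g z m l) x =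
        ∑ j, ∑ i, ∑ l, ∑ m, (Jc τ p i x * PP H j i l m x) * PA τ g j m l x +
        ∑ j, ∑ i, ∑ l, ∑ m, (Jc τ p i x * PP H j i l m x) * QA τ g j m l x := by
      simp only [← Finset.sum_add_distrib]
      exact Finset.sum_congr rfl fun j _ => Finset.sum_congr rfl fun i _ =>
        Finset.sum_congr rfl fun l _ => Finset.sum_congr rfl fun m _ => by
          rw [cdb_g hWIRT hWCH hK hg hinv ha hx j m l]; ring
    rw [this, e2, add_zero]
  rw [e1, e3]
  have e4 := exch (fun j i l m => Jc τ p i x * PP H j i l m x)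
    (fun a b q => cdb q (fun z => g z a b) (τ x))
    (fun j i l m a b q => Jc τ a m x * (conj (Jc τ b l x) * conj (Jc τ q j x)))
  have e5 : ∑ j, ∑ i, ∑ l, ∑ m, (Jc τ p i x * PP H j i l m x) * PA τ g j m l x = _ := e4
  rw [e5]
  have e6 : ∀ a b q, ∑ j, ∑ i, ∑ l, ∑ m,
      Jc τ a m x * (conj (Jc τ b l x) * conj (Jc τ q j x)) * (Jc τ p i x * PP H j i l m x) =
      ((‖(fderiv ℂ τ x).det‖ ^ 2 : ℝ) : ℂ) * PP H q p b a (τ x) := by
    intro a b q
    rw [PP_nat hDETI hK ha hx q p b a]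
    exact Finset.sum_congr rfl fun j _ => Finset.sum_congr rfl fun i _ =>
      Finset.sum_congr rfl fun l _ => Finset.sum_congr rfl fun m _ => by ring
  simp only [e6]
  rw [rev3]
  show _ = ((‖(fderiv ℂ τ x).det‖ ^ 2 : ℝ) : ℂ) *
    ∑ q, ∑ b, ∑ a, PP H q p b a (τ x) * cdb q (fun z => g z a b) (τ x)
  simp only [Finset.mul_sum]
  exact Finset.sum_congr rfl fun q _ => Finset.sum_congr rfl fun b _ =>
    Finset.sum_congr rfl fun a _ => by ring

theorem E2_nat (hWIRT : S_WIRT) (hWCH : S_WCH) (hDETI : S_DETI.{u}) (hK : KEt T R H)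
    (hg : ∀ i j, ContDiffOn ℝ ∞ (fun x => g x i j) T)
    (hinv : ∀ U τ, Arr R U τ → ∀ x ∈ U, ∀ e e',
      hermi (g (τ x)) (fderiv ℂ τ x e) (fderiv ℂ τ x e') = hermi (g x) e e')
    (ha : Arr R U τ) (hx : x ∈ U) :
    E2 H g x = ((‖(fderiv ℂ τ x).det‖ ^ 2 : ℝ) : ℂ) * E2 H g (τ x) := by
  have hmem := arr_mem hK ha hx
  have hd := (hDETI T R H hK).1
  rw [E2_eq (hd x hmem.1).1, E2_eq (hd _ hmem.2).1]
  have e0 : ∀ j i l m, cd i (cdb j (fun z => g z m l)) x =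
      cd i (QA τ g j m l) x +
      (∑ a, ∑ b, ∑ q, cd i (Jc τ a m) x *
      (conj (Jc τ b l x) * conj (Jc τ q j x)) * cdb q (fun z => g z a b) (τ x)) +
      ∑ p, ∑ a, ∑ b, ∑ q, (Jc τ a m x * (conj (Jc τ b l x) * conj (Jc τ q j x)) * Jc τ p i x) *
        cd p (cdb q (fun z => g z a b)) (τ x) := by
    intro j i l m
    rw [cd_cdb_g hWIRT hWCH hK hg hinv ha hx, cd_PA hWIRT hWCH hK hg ha hx,
      ← pull (fun a b q => Jc τ a m x * (conj (Jc τ b l x) * conj (Jc τ q j x)))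
        (fun p => Jc τ p i x) (fun p a b q => cd p (cdb q (fun z => g z a b)) (τ x))]
    simp only [Finset.sum_add_distrib]
    ring
  have e1 : ∑ j, ∑ i, ∑ l, ∑ m, PP H j i l m x * cd i (QA τ g j m l) x = 0 := by
    refine anti13 _ fun j i l m => ?_
    rw [PP_anti13, (cd_congr ha.1 (fun y hy => QA_symm (g := g) hWIRT ha hy j m l) i hx).1]
    ring
  have e2 : ∑ j, ∑ i, ∑ l, ∑ m, PP H j i l m x *
      (∑ a, ∑ b, ∑ q, cd i (Jc τ a m) x *
      (conj (Jc τ b l x) * conj (Jc τ q j x)) * cdb q (fun z => g z a b) (τ x)) = 0 := by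
    refine anti24 _ fun j i l m => ?_
    rw [PP_anti24]
    simp only [fun a => Jc_symm hWIRT ha.1 ha.2.1 hx a m i]
    ring
  have e3 := contr ((‖(fderiv ℂ τ x).det‖ ^ 2 : ℝ) : ℂ) (fun j i l m => PP H j i l m x)
    (fun j i l m => PP H j i l m (τ x)) (fun a m => Jc τ a m x) (fun a m => conj (Jc τ a m x))
    (fun p a b q => cd p (cdb q (fun z => g z a b)) (τ x)) (PP_nat hDETI hK ha hx)
  have e4 : ∑ j, ∑ i, ∑ l, ∑ m, PP H j i l m x * cd i (cdb j (fun z => g z m l)) x =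
      ∑ j, ∑ i, ∑ l, ∑ m, PP H j i l m x * (cd i (QA τ g j m l) x +
      (∑ a, ∑ b, ∑ q, cd i (Jc τ a m) x *
      (conj (Jc τ b l x) * conj (Jc τ q j x)) * cdb q (fun z => g z a b) (τ x)) +
      ∑ p, ∑ a, ∑ b, ∑ q, (Jc τ a m x * (conj (Jc τ b l x) * conj (Jc τ q j x)) * Jc τ p i x) *
        cd p (cdb q (fun z => g z a b)) (τ x)) :=
    Finset.sum_congr rfl fun j _ => Finset.sum_congr rfl fun i _ =>
      Finset.sum_congr rfl fun l _ => Finset.sum_congr rfl fun m _ => by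
        rw [e0 j i l m]
  have e5 := split3 (fun j i l m => PP H j i l m x)
          (fun j i l m => cd i (QA τ g j m l) x)
          (fun j i l m => ∑ a, ∑ b, ∑ q, cd i (Jc τ a m) x *
            (conj (Jc τ b l x) * conj (Jc τ q j x)) * cdb q (fun z => g z a b) (τ x))
          (fun j i l m => ∑ p, ∑ a, ∑ b, ∑ q,
            (Jc τ a m x * (conj (Jc τ b l x) * conj (Jc τ q j x)) * Jc τ p i x) *
              cd p (cdb q (fun z => g z a b)) (τ x))
  refine e4.trans (e5.trans ?_)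

  rw [e1, e2, e3, zero_add, zero_add]


/-! ## The divergence -/

theorem PP_smooth (hDETI : S_DETI.{u}) (hK : KEt T R H) (j i l m : Fin n) :
    ContDiffOn ℝ ∞ (PP H j i l m) T := by
  obtain ⟨-, d2, d3, -⟩ := hDETI T R H hK
  have hD : ContDiffOn ℝ ∞ (fun x => ((H x).det.re : ℂ)) T := sm_real d2
  exact ((hD.mul (d3 j i)).mul (d3 l m)).sub ((hD.mul (d3 l i)).mul (d3 j m))

theorem YY_smooth (hWIRT : S_WIRT) (hDETI : S_DETI.{u}) (hK : KEt T R H)
    (hg : ∀ i j, ContDiffOn ℝ ∞ (fun x => g x i j) T) : ContDiffOn ℝ ∞ (YY H g) T := by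
  rw [contDiffOn_pi]
  intro i
  exact ContDiffOn.sum fun j _ => ContDiffOn.sum fun l _ => ContDiffOn.sum fun m _ =>
    (PP_smooth hDETI hK j i l m).mul ((hWIRT T hK.et.isOpen _ _ (hg m l) (hg m l)).1 j).2

theorem YY_div (hWIRT : S_WIRT) (hDETI : S_DETI.{u}) (hK : KEt T R H)
    (hg : ∀ i j, ContDiffOn ℝ ∞ (fun x => g x i j) T) (hx : x ∈ T) :
    ∑ i, cd i (fun y => YY H g y i) x = E2 H g x := by
  obtain ⟨d1, d2, d3, d4, d5, d6⟩ := hDETI T R H hK
  have hT := hK.et.isOpen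
  have hP := fun j i l m => PP_smooth hDETI hK j i l m
  have hc : ∀ j m l, ContDiffOn ℝ ∞ (cdb j (fun z => g z m l)) T := fun j m l =>
    ((hWIRT T hT _ _ (hg m l) (hg m l)).1 j).2
  have hF : ∀ i j l m, ContDiffOn ℝ ∞ (fun y => PP H j i l m y * cdb j (fun z => g z m l) y) T :=
    fun i j l m => (hP j i l m).mul (hc j m l)
  have h1 : ∀ i, cd i (fun y => YY H g y i) x = ∑ j, ∑ l, ∑ m,
      (PP H j i l m x * cd i (cdb j (fun z => g z m l)) x +
        cdb j (fun z => g z m l) x * cd i (PP H j i l m) x) := by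
    intro i
    unfold YY
    rw [(cd_sum hWIRT hT Finset.univ _ (fun j _ => ContDiffOn.sum fun l _ => ContDiffOn.sum
      fun m _ => hF i j l m) i hx).1]
    refine Finset.sum_congr rfl fun j _ => ?_
    rw [(cd_sum hWIRT hT Finset.univ _ (fun l _ => ContDiffOn.sum
      fun m _ => hF i j l m) i hx).1]
    refine Finset.sum_congr rfl fun l _ => ?_
    rw [(cd_sum hWIRT hT Finset.univ _ (fun m _ => hF i j l m) i hx).1]
    refine Finset.sum_congr rfl fun m _ => ?_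
    rw [((hWIRT T hT _ _ (hP j i l m) (hc j m l)).2.2.1 i x hx).1]
  rw [Finset.sum_congr rfl (fun i _ => h1 i), Finset.sum_comm, E2_eq (d1 x hx).1]
  refine Finset.sum_congr rfl fun j _ => ?_
  have h2 : ∀ l m, ∑ i, cd i (PP H j i l m) x = 0 := fun l m =>
    div_PP hT hK.smooth d2 d3 (fun y hy => (d1 y hy).2.2.2) hK.closed d6 hx j l m
  simp only [Finset.sum_add_distrib]
  have h3 : ∑ i, ∑ l, ∑ m, cdb j (fun z => g z m l) x * cd i (PP H j i l m) x = 0 := by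
    rw [Finset.sum_comm]
    refine Finset.sum_eq_zero fun l _ => ?_
    rw [Finset.sum_comm]
    refine Finset.sum_eq_zero fun m _ => ?_
    rw [← Finset.mul_sum, h2, mul_zero]
  rw [h3, add_zero]

theorem integrableOn_mul {T : Set (Cn n)} (hT : IsOpen T) {κ : Cn n → ℝ} (hκ : TestF T κ)
    {f : Cn n → ℂ} (hf : ContinuousOn f T) : IntegrableOn (fun x => (κ x : ℂ) * f x) T := by
  have h0 : Continuous (fun x => (κ x : ℂ)) := Complex.continuous_ofReal.comp hκ.1.continuous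
  have h1 : IntegrableOn (fun x => (κ x : ℂ) * f x) (tsupport κ) :=
    (h0.continuousOn.mul (hf.mono hκ.2.2)).integrableOn_compact hκ.2.1
  refine h1.of_forall_sdiff_eq_zero hT.measurableSet ?_
  rintro x ⟨-, hx⟩
  rw [image_eq_zero_of_notMem_tsupport hx, ofReal_zero, zero_mul]

end nat

theorem st2a (hWIRT : S_WIRT) (hWCH : S_WCH) (hDETI : S_DETI.{u}) (hDIVC : S_DIVC.{u}) :
    S_ST2A.{u} := by
  intro n T G _ R H g hK _ hg hinv κ hκ
  have hT := hK.et.isOpen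
  constructor
  · have h1 := hDIVC T R H hK κ hκ (YY H g) (YY_smooth hWIRT hDETI hK hg)
      (fun U τ ha x hx => YY_nat hWIRT hWCH hDETI hK hg hinv ha hx)
    have h2 : EqOn (fun x => (κ x : ℂ) * ∑ i, cd i (fun y => YY H g y i) x)
        (fun x => (κ x : ℂ) * E2 H g x) T := fun x hx => by
      simp only [YY_div hWIRT hDETI hK hg hx]
    rw [setIntegral_congr_fun hT.measurableSet h2] at h1
    have hc : ContinuousOn (E2 H g) T := by
      have e : EqOn (E2 H g) (fun x => ∑ i, cd i (fun y => YY H g y i) x) T := fun x hx =>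
        (YY_div hWIRT hDETI hK hg hx).symm
      refine ContinuousOn.congr ?_ e
      have hY := YY_smooth (g := g) hWIRT hDETI hK hg
      exact continuousOn_finset_sum _ fun i _ => (((hWIRT T hT _ _ (contDiffOn_pi.1 hY i)
        (contDiffOn_pi.1 hY i)).1 i).1).continuousOn
    have h3 := integral_re (integrableOn_mul hT hκ.test hc)
    rw [h1] at h3
    have h4 : ∀ x, RCLike.re ((κ x : ℂ) * E2 H g x) = κ x * (E2 H g x).re := fun x => by
      show ((κ x : ℂ) * E2 H g x).re = _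
      simp
    simp only [h4] at h3
    simpa using h3
  · intro U τ ha x hx
    rw [E2_nat hWIRT hWCH hDETI hK hg hinv ha hx, Complex.re_ofReal_mul, mul_comm]

end Pool.Agent.Helper74.RK
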